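import Pool.Agent.H639Z.OP.Basic

set_option autoImplicit false
open MeasureTheory Filter Topology
open scoped ENNReal

namespace Pool.Agent.H639Z.OP

variable {d : ℕ}

namespace IMS

theorem bdd_mul {η u : X d → ℝ} (hη : Continuous η) {M : ℝ} (h0 : ∀ x, |η x| ≤ M)
    (hu : MemLp u 2 volume) : MemLp (fun x => η x * u x) 2 volume := by
  refine MemLp.of_le_mul (c := M) hu (hη.aestronglyMeasurable.mul hu.1)
    (Eventually.of_forall fun x => ?_)
  rw [norm_mul]
  exact mul_le_mul_of_nonneg_right (h0 x) (norm_nonneg _)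

theorem diff {η : X d → ℝ} (hη : Sm η) : Differentiable ℝ η := hη.differentiable (by simp)

theorem pd_mul {η φ : X d → ℝ} (hη : Sm η) (hφ : Sm φ) (i : Fin d) (x : X d) :
    pd (fun y => η y * φ y) i x = η x * pd φ i x + pd η i x * φ x := by
  unfold pd
  rw [fderiv_fun_mul (diff hη x) (diff hφ x)]
  simp only [_root_.add_apply, _root_.smul_apply, smul_eq_mul]
  ring

theorem pd_cos {θ : X d → ℝ} (hθ : Sm θ) (i : Fin d) (x : X d) :
    pd (fun y => Real.cos (θ y)) i x = -Real.sin (θ x) * pd θ i x := by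
  unfold pd
  rw [fderiv_cos (diff hθ x)]
  simp only [_root_.smul_apply, smul_eq_mul]

theorem pd_sin {θ : X d → ℝ} (hθ : Sm θ) (i : Fin d) (x : X d) :
    pd (fun y => Real.sin (θ y)) i x = Real.cos (θ x) * pd θ i x := by
  unfold pd
  rw [fderiv_sin (diff hθ x)]
  simp only [_root_.smul_apply, smul_eq_mul]

theorem pd_off {θ : X d → ℝ} {M : ℝ} {T T' : Set (X d)} (hθ : Cut θ M T T') (i : Fin d)
    {x : X d} (hx : x ∉ T) : pd θ i x = 0 := by
  have hmin : IsLocalMin θ x := Eventually.of_forall fun y => by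
    show θ x ≤ θ y
    rw [hθ.off x hx]; exact hθ.nonneg y
  unfold pd
  rw [hmin.fderiv_eq_zero]
  rfl

end IMS

theorem H1.mul {f : P d} (hf : H1 f) {η : X d → ℝ} (hη : Sm η) {M : ℝ} (h0 : ∀ x, |η x| ≤ 1)
    (h1 : ∀ i x, |pd η i x| ≤ M) : H1 (mul η f) := by
  refine ⟨IMS.bdd_mul hη.continuous h0 hf.u2, fun i =>
    (IMS.bdd_mul hη.continuous h0 (hf.g2 i)).add (IMS.bdd_mul (pd_cont hη i) (h1 i) hf.u2),
    fun i φ hφ hc => ?_⟩
  have hs : Sm (fun y => η y * φ y) := hη.mul hφ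
  have hcs : HasCompactSupport (fun y => η y * φ y) := hc.mul_left
  have hw := hf.weak i _ hs hcs
  simp only [IMS.pd_mul hη hφ] at hw
  have i1 := int_mul (IMS.bdd_mul hη.continuous h0 hf.u2) (pd_memLp hφ hc i)
  have i2 := int_mul (IMS.bdd_mul (pd_cont hη i) (h1 i) hf.u2) (test_memLp hφ hc)
  have i3 := int_mul (IMS.bdd_mul hη.continuous h0 (hf.g2 i)) (test_memLp hφ hc)
  have e1 : ∫ x, f.1 x * (η x * pd φ i x + pd η i x * φ x) =
      (∫ x, η x * f.1 x * pd φ i x) + ∫ x, pd η i x * f.1 x * φ x := by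
    rw [← integral_add i1 i2]
    congr 1; funext x; ring
  have e2 : ∫ x, f.2 i x * (η x * φ x) = ∫ x, η x * f.2 i x * φ x := by
    congr 1; funext x; ring
  have e3 : ∫ x, (η x * f.2 i x + pd η i x * f.1 x) * φ x =
      (∫ x, η x * f.2 i x * φ x) + ∫ x, pd η i x * f.1 x * φ x := by
    rw [← integral_add i3 i2]
    congr 1; funext x; ring
  show ∫ x, η x * f.1 x * pd φ i x = - ∫ x, (η x * f.2 i x + pd η i x * f.1 x) * φ x
  rw [e3]
  rw [e1, e2] at hw
  linarith

namespace IMS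

theorem dom_mul {V : X d → ℝ≥0∞} {f : P d} (hf : Dom V f) {η : X d → ℝ} (hη : Sm η) {M : ℝ}
    (h0 : ∀ x, |η x| ≤ 1) (h1 : ∀ i x, |pd η i x| ≤ M) : Dom V (mul η f) := by
  refine ⟨hf.h1.mul hη h0 h1, lt_of_le_of_lt (lintegral_mono fun x => ?_) hf.fin⟩
  have : (η x * f.1 x) ^ 2 ≤ f.1 x ^ 2 := by
    have h2 : η x ^ 2 ≤ 1 := by
      rw [← sq_abs]; exact pow_le_one₀ (abs_nonneg _) (h0 x)
    rw [mul_pow]
    nlinarith [sq_nonneg (f.1 x)]
  exact mul_le_mul_right (ENNReal.ofReal_le_ofReal this) _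

end IMS

theorem ims {V : X d → ℝ≥0∞} (hV : Measurable V) {f : P d} (hf : Dom V f) {θ : X d → ℝ} {M : ℝ}
    {T T' : Set (X d)} (hT : MeasurableSet T) (hθ : Cut θ M T T') :
    Dom V (mul (fun x => Real.cos (θ x)) f) ∧ Dom V (mul (fun x => Real.sin (θ x)) f) ∧
    Q V (mul (fun x => Real.cos (θ x)) f) (mul (fun x => Real.cos (θ x)) f) +
      Q V (mul (fun x => Real.sin (θ x)) f) (mul (fun x => Real.sin (θ x)) f) ≤
        Q V f f + d * M ^ 2 * ∫ x in T, f.1 x ^ 2 := by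
  have hc : Dom V (mul (fun x => Real.cos (θ x)) f) := by
    refine IMS.dom_mul hf hθ.sm.cos (M := M) (fun x => Real.abs_cos_le_one _) fun i x => ?_
    rw [IMS.pd_cos hθ.sm, abs_mul, abs_neg]
    exact (mul_le_of_le_one_left (abs_nonneg _) (Real.abs_sin_le_one _)).trans (hθ.bd i x)
  have hs : Dom V (mul (fun x => Real.sin (θ x)) f) := by
    refine IMS.dom_mul hf hθ.sm.sin (M := M) (fun x => Real.abs_sin_le_one _) fun i x => ?_
    rw [IMS.pd_sin hθ.sm, abs_mul]
    exact (mul_le_of_le_one_left (abs_nonneg _) (Real.abs_cos_le_one _)).trans (hθ.bd i x)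
  refine ⟨hc, hs, ?_⟩
  have hP : Pt V (mul (fun x => Real.cos (θ x)) f) (mul (fun x => Real.cos (θ x)) f) +
      Pt V (mul (fun x => Real.sin (θ x)) f) (mul (fun x => Real.sin (θ x)) f) = Pt V f f := by
    unfold Pt
    rw [← integral_add (hc.int_self hV) (hs.int_self hV)]
    congr 1; funext x
    simp only [mul]
    have := Real.cos_sq_add_sin_sq (θ x)
    linear_combination ((V x).toReal * (f.1 x * f.1 x)) * this
  have hsq : Integrable (fun x => f.1 x ^ 2) volume := by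
    simpa only [sq] using int_mul hf.h1.u2 hf.h1.u2
  have hind : Integrable (T.indicator fun x => f.1 x ^ 2) volume := hsq.indicator hT
  have hG : ∀ i : Fin d,
      (∫ x, (mul (fun x => Real.cos (θ x)) f).2 i x * (mul (fun x => Real.cos (θ x)) f).2 i x) +
      (∫ x, (mul (fun x => Real.sin (θ x)) f).2 i x * (mul (fun x => Real.sin (θ x)) f).2 i x) ≤
      (∫ x, f.2 i x * f.2 i x) + M ^ 2 * ∫ x in T, f.1 x ^ 2 := by
    intro i
    have j1 := int_mul (hc.h1.g2 i) (hc.h1.g2 i)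
    have j2 := int_mul (hs.h1.g2 i) (hs.h1.g2 i)
    have j3 := int_mul (hf.h1.g2 i) (hf.h1.g2 i)
    rw [← integral_add j1 j2, ← integral_indicator hT, ← integral_const_mul,
      ← integral_add j3 (hind.const_mul _)]
    refine integral_mono (j1.add j2) (j3.add (hind.const_mul _)) fun x => ?_
    simp only [mul, IMS.pd_cos hθ.sm, IMS.pd_sin hθ.sm]
    have h1 := Real.cos_sq_add_sin_sq (θ x)
    have h2 : pd θ i x ^ 2 * f.1 x ^ 2 ≤ M ^ 2 * T.indicator (fun x => f.1 x ^ 2) x := by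
      by_cases hx : x ∈ T
      · rw [Set.indicator_of_mem hx]
        refine mul_le_mul_of_nonneg_right ?_ (sq_nonneg _)
        rw [← sq_abs]
        exact pow_le_pow_left₀ (abs_nonneg _) (hθ.bd i x) 2
      · rw [Set.indicator_of_notMem hx, IMS.pd_off hθ i hx]; simp
    have h3 : (Real.cos (θ x) * f.2 i x + -Real.sin (θ x) * pd θ i x * f.1 x) *
          (Real.cos (θ x) * f.2 i x + -Real.sin (θ x) * pd θ i x * f.1 x) +
        (Real.sin (θ x) * f.2 i x + Real.cos (θ x) * pd θ i x * f.1 x) *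
          (Real.sin (θ x) * f.2 i x + Real.cos (θ x) * pd θ i x * f.1 x) =
        f.2 i x * f.2 i x + pd θ i x ^ 2 * f.1 x ^ 2 := by
      linear_combination (f.2 i x * f.2 i x + pd θ i x ^ 2 * f.1 x ^ 2) * h1
    rw [h3]
    linarith
  have hsum := Finset.sum_le_sum fun i (_ : i ∈ (Finset.univ : Finset (Fin d))) => hG i
  rw [Finset.sum_add_distrib, Finset.sum_add_distrib, Finset.sum_const, Finset.card_univ,
    Fintype.card_fin, nsmul_eq_mul] at hsum
  unfold Q G
  linarith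

end Pool.Agent.H639Z.OP
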